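import Pool.Agent.V11282.DW.J

/-!
# MP_62a15f_an, Q1: the form bound can be strictly smaller than the `L¹` spectral radius limit

In every dimension `d ≥ 1` we give a symmetric sub-Markovian semigroup on `ℝ^d`, with generator `T`
on `L¹`, and a potential `V ≥ 0` which is `T`-bounded in `L¹`, such that the form bound `β` of `V` is
strictly smaller than `δ = lim r(V (lam - T)⁻¹)`.
-/

set_option autoImplicit false

open MeasureTheory Filter Topology
open scoped ENNReal NNReal RealInnerProductSpace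

namespace Pool.Agent.Results.MP_62a15f_an.FormBound

/-- Euclidean space `ℝ^d`. -/
abbrev E (d : ℕ) : Type := EuclideanSpace ℝ (Fin d)

/-- Lebesgue measure on `ℝ^d`. -/
noncomputable abbrev leb (d : ℕ) : Measure (E d) := volume

/-- `L^p(ℝ^d)` for Lebesgue measure, real functions. -/
abbrev L (d : ℕ) (p : ℝ≥0∞) : Type := Lp ℝ p (leb d)

/-- Bounded operators on `L^p(ℝ^d)`. -/
abbrev Op (d : ℕ) (p : ℝ≥0∞) [Fact (1 ≤ p)] : Type := L d p →L[ℝ] L d p

/-- Families of operators `U p t` on `L^p(ℝ^d)`, `1 ≤ p ≤ ∞`, `t` real (only `t ≥ 0` matters). -/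
abbrev Fam (d : ℕ) : Type := (p : ℝ≥0∞) → [Fact (1 ≤ p)] → ℝ → Op d p

variable {d : ℕ}

/-- The function underlying an element of `L^p`. -/
noncomputable def fn {p : ℝ≥0∞} (f : L d p) : E d → ℝ := f

/-- Application of an operator. -/
noncomputable def ap {p : ℝ≥0∞} [Fact (1 ≤ p)] (T : Op d p) (f : L d p) : L d p := T f

/-- Almost everywhere equality of functions on `ℝ^d`. -/
def AE (f g : E d → ℝ) : Prop := f =ᵐ[leb d] g

/-- A function is nonnegative almost everywhere. -/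
def Nonneg (f : E d → ℝ) : Prop := ∀ᵐ x ∂(leb d), 0 ≤ f x

/-- The difference `f - g` in `L^p`. -/
noncomputable def dif {p : ℝ≥0∞} (f g : L d p) : L d p := f - g

/-- The multiple `c f` in `L^p`. -/
noncomputable def mul {p : ℝ≥0∞} (c : ℝ) (f : L d p) : L d p := c • f

/-- The norm of `L^p`. -/
noncomputable def nrm {p : ℝ≥0∞} (f : L d p) : ℝ := ‖f‖

/-- The inner product of `L²`. -/
noncomputable def ip (f g : L d 2) : ℝ := ⟪f, g⟫

/-- The operators on the different `L^p` agree on common functions. -/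
def Consistent (U : Fam d) : Prop :=
  ∀ (p p' : ℝ≥0∞) [Fact (1 ≤ p)] [Fact (1 ≤ p')] (t : ℝ), 0 ≤ t →
    ∀ (f : L d p) (g : L d p'), AE (fn f) (fn g) → AE (fn (ap (U p t) f)) (fn (ap (U p' t) g))

/-- The semigroup law. -/
def IsSemi (U : Fam d) : Prop :=
  ∀ (p : ℝ≥0∞) [Fact (1 ≤ p)] (f : L d p), ap (U p 0) f = f ∧
    ∀ s t : ℝ, 0 ≤ s → 0 ≤ t → ap (U p (s + t)) f = ap (U p s) (ap (U p t) f)

/-- Positivity. -/
def IsPositive (U : Fam d) : Prop :=
  ∀ (p : ℝ≥0∞) [Fact (1 ≤ p)] (t : ℝ), 0 ≤ t → ∀ f : L d p,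
    Nonneg (fn f) → Nonneg (fn (ap (U p t) f))

/-- Contractivity on `L¹` and on `L^∞`. -/
def IsContractive (U : Fam d) : Prop :=
  ∀ t : ℝ, 0 ≤ t → (∀ f : L d 1, nrm (ap (U 1 t) f) ≤ nrm f) ∧
    (∀ f : L d ∞, nrm (ap (U ∞ t) f) ≤ nrm f)

/-- Strong continuity on `L^p`, `1 ≤ p < ∞`. -/
def IsContinuous (U : Fam d) : Prop :=
  ∀ (p : ℝ≥0∞) [Fact (1 ≤ p)], p ≠ ∞ → ∀ f : L d p,
    ContinuousOn (fun t : ℝ => ap (U p t) f) (Set.Ici 0)

/-- The norm of the power `K ^ n`. -/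
noncomputable def powNorm (K : Op d 1) (n : ℕ) : ℝ := ‖K ^ n‖

/-- Self-adjointness on `L²`. -/
def IsSymmetric (U : Fam d) : Prop :=
  ∀ t : ℝ, 0 ≤ t → ∀ f g : L d 2, ip (ap (U 2 t) f) g = ip f (ap (U 2 t) g)

/-- `U` is a symmetric sub-Markovian semigroup on `ℝ^d`: consistent operators `U p t` on `L^p`,
`1 ≤ p ≤ ∞`, `t ≥ 0`, which form a semigroup, are positive, are contractions on `L¹` and on
`L^∞`, are strongly continuous on `L^p` for `1 ≤ p < ∞`, and are self-adjoint on `L²`. -/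
structure SubMarkov (U : Fam d) : Prop where
  cons : Consistent U
  semi : IsSemi U
  pos : IsPositive U
  contr : IsContractive U
  cont : IsContinuous U
  symm : IsSymmetric U

/-- `f` is in the domain of the generator `T` on `L¹`, and `T f = g`. -/
def Gen (U : Fam d) (f g : L d 1) : Prop :=
  Tendsto (fun t : ℝ => nrm (dif (mul t⁻¹ (dif (ap (U 1 t) f) f)) g)) (𝓝[>] 0) (𝓝 0)

/-- `V` is `T`-bounded in `L¹`: the domain of `T` is contained in the domain of `V`. -/
def TBounded (U : Fam d) (V : E d → ℝ) : Prop :=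
  ∀ f g : L d 1, Gen U f g → Integrable (fun x => V x * fn f x) (leb d)

/-- `K = V (lam - T)⁻¹` on `L¹`: for every `h` there is `f` in the domain of `T` with
`lam f - T f = h` and `K h = V f`. -/
def IsVRes (U : Fam d) (V : E d → ℝ) (lam : ℝ) (K : Op d 1) : Prop :=
  ∀ h : L d 1, ∃ f g : L d 1, Gen U f g ∧ dif (mul lam f) g = h ∧
    AE (fn (ap K h)) (fun x => V x * fn f x)

/-- `r` is the spectral radius of `K` (the formula of Gelfand: the limit of `‖K ^ n‖ ^ (1 / n)`). -/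
def HasSpectralRadius (K : Op d 1) (r : ℝ) : Prop :=
  Tendsto (fun n : ℕ => powNorm K n ^ (1 / (n : ℝ))) atTop (𝓝 r)

/-- `δ` is the limit, as `lam → ∞`, of the spectral radius of `V (lam - T)⁻¹` on `L¹`. -/
def IsDelta (U : Fam d) (V : E d → ℝ) (δ : ℝ) : Prop :=
  ∃ (K : ℝ → Op d 1) (r : ℝ → ℝ),
    (∀ lam : ℝ, 0 < lam → IsVRes U V lam (K lam) ∧ HasSpectralRadius (K lam) (r lam)) ∧
    Tendsto r atTop (𝓝 δ)

/-- The closed form `q(φ) = ‖(-T₂)^(1/2) φ‖²` (infinite outside the domain of the form), written as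
the supremum over `t > 0` of `⟪φ - U(t) φ, φ⟫ / t`. -/
noncomputable def form (U : Fam d) (φ : L d 2) : ℝ≥0∞ :=
  ⨆ t : ℝ, ⨆ _ : 0 < t, ENNReal.ofReal (ip (dif φ (ap (U 2 t) φ)) φ / t)

/-- The form bound of `V` (infinite if `V` is not form bounded). -/
noncomputable def formBound (U : Fam d) (V : E d → ℝ) : ℝ≥0∞ :=
  sInf {a : ℝ≥0∞ | a ≠ ∞ ∧ ∃ b : ℝ≥0∞, b ≠ ∞ ∧ ∀ φ : L d 2, form U φ ≠ ∞ →
    ∫⁻ x, ENNReal.ofReal (V x * fn φ x ^ 2) ∂(leb d) ≤
      a * form U φ + b * ENNReal.ofReal (nrm φ ^ 2)}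

open Pool.Agent.V11282.DW in
/-- the semigroup of the example -/
noncomputable def ex (d : ℕ) (hd : 0 < d) : Fam d := fun p _ t => (dil d hd).U p t

open Pool.Agent.V11282.DW in
lemma ex_sum_le (d : ℕ) (hd : 0 < d) {t : ℝ} (ht : 0 ≤ t) (x : E d) :
    ∑' k, (dil d hd).cc t k x ≤ 1 := by
  rw [Dila.cc_tsum]
  have := (dil d hd).v0 x
  exact Real.exp_le_one_iff.2 (by
    have : 0 ≤ t * (3 / 4 * (dil d hd).v x) := by positivity
    linarith)

open Pool.Agent.V11282.DW in
lemma ex_sub (d : ℕ) (hd : 0 < d) : SubMarkov (ex d hd) where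
  cons := fun p p' _ _ t ht f g hfg => Dila.Op_cons p p' (Dila.cc_good ht) hfg
  semi := fun p _ f => ⟨by
      show (dil d hd).U p 0 f = f
      rw [Dila.U_zero]; rfl, fun s t hs ht => by
      show (dil d hd).U p (s + t) f = (dil d hd).U p s ((dil d hd).U p t f)
      rw [Dila.U_add p hs ht]; rfl⟩
  pos := fun p _ t ht f hf => by
    have h1 : 0 ≤ f := (Lp.coeFn_nonneg f).1 hf
    exact (Lp.coeFn_nonneg _).2 (Dila.Op_nonneg p (Dila.cc_good ht) (Dila.cc_nonneg ht) h1)
  contr := fun t ht => by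
    refine ⟨fun f => ?_, fun f => ?_⟩
    · have h1 := Dila.norm_Op_le (Dila.cc_good (D := dil d hd) ht) (Dila.cc_nonneg ht) f
      refine h1.trans ?_
      have hfi : Integrable (f : EuclideanSpace ℝ (Fin d) → ℝ) volume := L1.integrable_coeFn f
      have hb : Bd (fun x => ∑' k, (dil d hd).cc t k x) := by
        have e : (fun x => ∑' k, (dil d hd).cc t k x) =
            fun x => Real.exp (-(t * ((3 / 4) * (dil d hd).v x))) := by
          ext x; exact Dila.cc_tsum t x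
        refine ⟨by rw [e]; have := (dil d hd).mv; fun_prop, 1, zero_le_one, fun x => ?_⟩
        rw [abs_of_nonneg (tsum_nonneg fun k => Dila.cc_nonneg ht k x)]
        exact ex_sum_le d hd ht x
      have e2 : nrm f = ∫ x, |f x| := by
        show ‖f‖ = _
        rw [L1.norm_eq_integral_norm]; rfl
      rw [e2]
      refine integral_mono (hb.integrable hfi.abs) hfi.abs fun x => ?_
      have := mul_le_mul_of_nonneg_right (ex_sum_le d hd ht x) (abs_nonneg (f x))
      rw [one_mul] at this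
      exact this
    · exact Dila.Op_top (Dila.cc_good ht) (Dila.cc_nonneg ht) (fun x => ex_sum_le d hd ht x) f
  cont := fun p _ hp f => Dila.U_cont p hp f
  symm := fun t ht f g => Dila.Op_symm (Dila.cc_good ht) f g

open Pool.Agent.V11282.DW in
/-- In every dimension `d ≥ 1` there are a symmetric sub-Markovian semigroup and a potential `V ≥ 0`,
`T`-bounded in `L¹`, with form bound strictly smaller than `δ`. -/
theorem result (d : ℕ) (hd : 0 < d) :
    ∃ (U : Fam d) (V : E d → ℝ) (δ : ℝ),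
      SubMarkov U ∧ Measurable V ∧ (∀ x, 0 ≤ V x) ∧ TBounded U V ∧ IsDelta U V δ ∧
      formBound U V < ENNReal.ofReal δ := by
  set D := dil d hd with hD
  refine ⟨ex d hd, D.v, 4 / 3, ex_sub d hd, D.mv, fun x => (D.v0 x).le, ?_, ?_, ?_⟩
  · intro f g hg
    exact Dila.dom (D := D) (tendsto_iff_norm_sub_tendsto_zero.2 hg)
  · refine ⟨fun lam => D.Op 1 (D.kk lam), fun _ => 4 / 3, fun lam hl => ⟨?_, Dila.K_radius hl⟩,
      tendsto_const_nhds⟩
    intro h
    refine ⟨D.Op 1 (D.rr lam) h, lam • D.Op 1 (D.rr lam) h - h,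
      tendsto_iff_norm_sub_tendsto_zero.1 (Dila.gen hl h), ?_, Dila.res_ae hl h⟩
    exact sub_sub_cancel (lam • D.Op 1 (D.rr lam) h) h
  · have hρ := D.ρ_lt
    have hρ0 := D.ρ0
    have hκ : 0 < 1 - D.ρ / 4 := by linarith
    refine lt_of_le_of_lt (b := ENNReal.ofReal (1 - D.ρ / 4)⁻¹) ?_ ?_
    · refine sInf_le ⟨ENNReal.ofReal_ne_top, 0, ENNReal.zero_ne_top, fun φ _ => ?_⟩
      rw [zero_mul, add_zero]
      have h1 := Dila.form_bound (D := D) φ
      have h2 : ∫⁻ x, ENNReal.ofReal (D.v x * fn φ x ^ 2) =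
          ∫⁻ x, ENNReal.ofReal (1 - D.ρ / 4)⁻¹ *
            ENNReal.ofReal ((1 - D.ρ / 4) * D.v x * (φ x * φ x)) := by
        apply lintegral_congr
        intro x
        rw [← ENNReal.ofReal_mul (inv_nonneg.2 hκ.le)]
        congr 1
        show D.v x * φ x ^ 2 = _
        calc D.v x * φ x ^ 2 = ((1 - D.ρ / 4)⁻¹ * (1 - D.ρ / 4)) * (D.v x * φ x ^ 2) := by
              rw [inv_mul_cancel₀ hκ.ne', one_mul]
          _ = _ := by ring
      rw [h2, lintegral_const_mul' _ _ ENNReal.ofReal_ne_top]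
      exact mul_le_mul_right h1 _
    · rw [ENNReal.ofReal_lt_ofReal_iff (by norm_num)]
      rw [inv_lt_comm₀ hκ (by norm_num)]
      norm_num
      linarith

end Pool.Agent.Results.MP_62a15f_an.FormBound
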